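import Pool.Agent.Q225.GH.Stm

/-!
Project GH (helper225), job POS: numbering of the darts.
-/

set_option autoImplicit false

open Finset Pool.Agent.Q225.GH

namespace Pool.Agent.Q231.GH.POS

theorem gen {D V : Type} [Finite D] (f : D → V) (σ : Equiv.Perm D)
    (hs : ∀ d d', σ.SameCycle d d' ↔ f d = f d') :
    ∃ pos : D → ℕ, (∀ d d', f d = f d' → pos d = pos d' → d = d') ∧
      ∀ d, pos (σ d) = pos d + 1 ∨ (pos (σ d) = 0 ∧ ∀ d', f d' = f d → pos d' ≤ pos d) := by
  classical
  rcases isEmpty_or_nonempty D with hD | ⟨⟨d0⟩⟩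
  · exact ⟨fun _ => 0, fun d => (hD.false d).elim, fun d => (hD.false d).elim⟩
  obtain ⟨g, hg⟩ : ∃ g : V → D, ∀ d, f (g (f d)) = f d := by
    refine ⟨fun v => if h : ∃ d, f d = v then h.choose else d0, ?_⟩
    intro d
    have h : ∃ d', f d' = f d := ⟨d, rfl⟩
    show f (if h : ∃ d', f d' = f d then h.choose else d0) = f d
    rw [dif_pos h]
    exact h.choose_spec
  have hex : ∀ d, ∃ k : ℕ, (σ ^ k) (g (f d)) = d :=
    fun d => ((hs _ _).2 (hg d)).exists_nat_pow_eq
  obtain ⟨pos, hpos, hmin⟩ : ∃ pos : D → ℕ, (∀ d, (σ ^ pos d) (g (f d)) = d) ∧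
      ∀ d k, (σ ^ k) (g (f d)) = d → pos d ≤ k :=
    ⟨fun d => Nat.find (hex d), fun d => Nat.find_spec (hex d),
      fun d k h => Nat.find_min' (hex d) h⟩
  have hf : ∀ d, f (σ d) = f d := fun d => ((hs _ _).1 ⟨1, by simp⟩).symm
  refine ⟨pos, ?_, ?_⟩
  · intro d d' h1 h2
    calc d = (σ ^ pos d) (g (f d)) := (hpos d).symm
      _ = (σ ^ pos d') (g (f d')) := by rw [h1, h2]
      _ = d' := hpos d'
  · intro d
    by_cases hb : σ d = g (f d)
    · right
      have h0 : pos (σ d) = 0 := by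
        refine Nat.le_zero.1 (hmin _ 0 ?_)
        rw [pow_zero, Equiv.Perm.one_apply, hf, hb]
      refine ⟨h0, fun d' h' => ?_⟩
      have hN : (σ ^ (pos d + 1)) (g (f d)) = g (f d) := by
        rw [pow_succ', Equiv.Perm.mul_apply, hpos, hb]
      have hper : ∀ q : ℕ, (σ ^ ((pos d + 1) * q)) (g (f d)) = g (f d) := by
        intro q
        induction q with
        | zero => rw [mul_zero, pow_zero, Equiv.Perm.one_apply]
        | succ q ih => rw [mul_add, mul_one, pow_add, Equiv.Perm.mul_apply, hN, ih]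
      obtain ⟨k, hk⟩ := hex d'
      rw [h'] at hk
      have h3 : (σ ^ (k % (pos d + 1))) (g (f d)) = d' := by
        rw [← hk]
        conv_rhs => rw [← Nat.mod_add_div k (pos d + 1), pow_add, Equiv.Perm.mul_apply, hper]
      exact (hmin d' _ (by rw [h']; exact h3)).trans
        (Nat.lt_succ_iff.1 (Nat.mod_lt _ (Nat.succ_pos _)))
    · left
      apply le_antisymm
      · apply hmin
        rw [hf, pow_succ', Equiv.Perm.mul_apply, hpos]
      · rcases Nat.eq_zero_or_pos (pos (σ d)) with h0 | h0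
        · exfalso
          apply hb
          have h4 := hpos (σ d)
          rw [h0, pow_zero, Equiv.Perm.one_apply, hf] at h4
          exact h4.symm
        · obtain ⟨k, hk⟩ := Nat.exists_eq_succ_of_ne_zero h0.ne'
          have h4 := hpos (σ d)
          rw [hk, hf, Nat.succ_eq_add_one, pow_succ', Equiv.Perm.mul_apply] at h4
          have h5 := hmin d k (σ.injective h4)
          omega

theorem pos : S_POS := by
  intro V _ _ H _ σ hs
  obtain ⟨pos, h1, h2⟩ := gen (fun d : H.Dart => d.fst) σ hs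
  exact ⟨pos, ⟨h1, h2⟩⟩

end Pool.Agent.Q231.GH.POS
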